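import Pool.Agent.H40.BP.Asm8

/-!
# The question of Nori and Rao for the rings `W[[X_0,...,X_(r+1)]]/(X_0 X_1 - u)`, `W` a complete
regular local ring of dimension two, `u` a regular parameter of `W`
-/

set_option autoImplicit false

open Polynomial TensorProduct

namespace Pool.Agent.Results.MP_a37f0b_ag.NoriRaoHyperbolic

open BQ Pool.Agent.W394.BQN Pool.Agent.H40.BP IsLocalRing

/-- **The question of Nori and Rao for `H = W[[X_0,...,X_(r+1)]]/(X_0 X_1 - u)`**: all projective
modules over (the polynomial rings over) `H[1/(X_0 v c)]` are free, `v` a regular parameter of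
`W`, `c` a nonzero element of `W`. -/
theorem result :
    ∀ (W : Type) [CommRing W] [IsRegularLocalRing W] [IsAdicComplete (maximalIdeal W) W],
      ringKrullDim W = 2 → ∀ u : W, u ∈ maximalIdeal W → u ∉ maximalIdeal W ^ 2 → ∀ r : ℕ,
        -- `H` is a regular local ring of dimension `r + 3`
        ringKrullDim (Hyp W u r) = ((r + 3 : ℕ) : WithBot ℕ∞) ∧
        -- `v, X_0, ..., X_(r+1)` is a regular system of parameters of `H` if `m_W = (u, v)`
        (∃ _ : IsRegularLocalRing (Hyp W u r),
          ∀ v : W, maximalIdeal W = Ideal.span {u, v} →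
            maximalIdeal (Hyp W u r) = Ideal.span ({hypMk W u r (MvPowerSeries.C v)} ∪
              Set.range (fun i : Fin (r + 2) => hypMk W u r (MvPowerSeries.X i)))) ∧
        -- the rings `H[1/(X_0 v c)]`
        (∀ v c : W, v ∈ maximalIdeal W → v ∉ maximalIdeal W ^ 2 → c ≠ 0 →
          AllFree (Localization.Away
            (hypMk W u r (MvPowerSeries.X 0 * MvPowerSeries.C (v * c))))) := by
  intro W _ _ _ hW u hu hu2 r
  have hreg := hyp_regular W hW u hu hu2 r
  refine ⟨hreg.2, ?_, fun v c hv hv2 hc => c_H2 W hW u hu hu2 r v c hv hv2 hc⟩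
  have h1 := hreg.1
  exact ⟨h1, fun v huv => hyp_max W u hu r v huv⟩

end Pool.Agent.Results.MP_a37f0b_ag.NoriRaoHyperbolic
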