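import Pool.Agent.H40.BP.Asm5

/-!
# The question of Nori and Rao for power series rings over complete regular local rings of
dimension two
-/

set_option autoImplicit false

open Polynomial TensorProduct

namespace Pool.Agent.Results.MP_a37f0b_ag.NoriRaoPowerSeries

open BQ Pool.Agent.W394.BQN Pool.Agent.H40.BP IsLocalRing

/-- **The question of Nori and Rao for `R = W[[X_1,...,X_n]]`**, `W` a complete regular local ring
of dimension two: all projective modules over (the polynomial rings over) `R[1/(uc)]` and
`R[1/(ucr)]` are free, `u` a regular parameter of `W`, `c` a nonzero element of `W` (in the first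
case not a unit), `r` a regular parameter of `R` outside `m_W R + m_R^2`. -/
theorem result :
    ∀ (W : Type) [CommRing W] [IsRegularLocalRing W] [IsAdicComplete (maximalIdeal W) W],
      ringKrullDim W = 2 → ∀ n : ℕ,
        -- `R` is a regular local ring of dimension `n + 2`
        IsRegularLocalRing (MvPowerSeries (Fin n) W) ∧
        ringKrullDim (MvPowerSeries (Fin n) W) = ((2 + n : ℕ) : WithBot ℕ∞) ∧
        -- generators of `m_W` and the variables are a regular system of parameters of `R`
        (∀ a b : W, maximalIdeal W = Ideal.span {a, b} →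
          maximalIdeal (MvPowerSeries (Fin n) W) =
            Ideal.span ({MvPowerSeries.C a, MvPowerSeries.C b} ∪ Set.range MvPowerSeries.X)) ∧
        -- the rings `R[1/(uc)]`
        (∀ u c : W, u ∈ maximalIdeal W → u ∉ maximalIdeal W ^ 2 → c ∈ maximalIdeal W → c ≠ 0 →
          AllFree (Localization.Away (MvPowerSeries.C (u * c) : MvPowerSeries (Fin n) W))) ∧
        -- the rings `R[1/(ucr)]`
        (∀ u c : W, u ∈ maximalIdeal W → u ∉ maximalIdeal W ^ 2 → c ≠ 0 →
          ∀ r : MvPowerSeries (Fin n) W, MvPowerSeries.constantCoeff r ∈ maximalIdeal W →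
            (∃ i : Fin n, IsUnit (MvPowerSeries.coeff (Finsupp.single i 1) r)) →
              AllFree (Localization.Away (MvPowerSeries.C (u * c) * r))) := by
  intro W _ _ _ hW n
  refine ⟨t_RGP n W, t_DIMP n 2 W (by exact_mod_cast hW), (t_QPAR n W).1, ?_, ?_⟩
  · intro u c hu hu2 _ hc
    exact c_N1 W hW n u c hu hu2 hc
  · rintro u c hu hu2 hc r hr0 ⟨i, hr1⟩
    exact c_N2 W hW n u c hu hu2 hc r hr0 i hr1

end Pool.Agent.Results.MP_a37f0b_ag.NoriRaoPowerSeries
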